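import Pool.Agent.TwoPowSparse.Local2

/-!
# Counting
-/

namespace Pool.Agent.TwoPowSparse

open Finset Pool.Agent.TwoPow

section prime

variable {p : ℕ} [hp : Fact p.Prime]

lemma decomp {n : ℕ} (hn : 1 ≤ n) (hpn : p ∣ n) (hden : ¬ p ∣ (R n).den) :
    ∃ e m : ℕ, 1 ≤ e ∧ ¬ p ∣ m ∧ n = p ^ e * m ∧ Z p (e + 1) (m / p) := by
  obtain ⟨e, m, hm, hnm⟩ := Nat.exists_eq_pow_mul_and_not_dvd (show n ≠ 0 by omega) p hp.out.ne_one
  have he : 1 ≤ e := by
    rcases Nat.eq_zero_or_pos e with h0 | h0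
    · rw [h0, pow_zero, one_mul] at hnm
      rw [hnm] at hpn
      exact absurd hpn hm
    · exact h0
  obtain ⟨z, hz⟩ := integral_of_not_dvd_den (p := p) (R n) hden
  rw [hnm] at hz
  exact ⟨e, m, he, hm, hnm, Z_of_R he ((Nat.Prime.coprime_iff_not_dvd hp.out).mpr hm) z hz⟩

lemma card_S (x : ℕ) :
    ((Icc 1 x).filter fun n => p ∣ n ∧ ¬ p ∣ (R n).den).card ≤
      ∑ e ∈ range (Nat.log 2 x + 1), cz p (e + 1) (x / p ^ 2 + 1) * p := by
  classical
  have hp2 := hp.out.two_le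
  have hp0 := hp.out.pos
  have h1 : ((Icc 1 x).filter fun n => p ∣ n ∧ ¬ p ∣ (R n).den) ⊆
      (range (Nat.log 2 x + 1)).biUnion fun e =>
        (((range (x / p ^ 2 + 1)).filter fun m => Z p (e + 1) m) ×ˢ range p).image
          fun q => p ^ e * (p * q.1 + q.2) := by
    intro n hn
    rw [mem_filter, mem_Icc] at hn
    obtain ⟨⟨hn1, hnx⟩, hpn, hden⟩ := hn
    obtain ⟨e, m, he, hm, hnm, hZ⟩ := decomp hn1 hpn hden
    have hm0 : 0 < m := Nat.pos_of_ne_zero (by rintro rfl; exact hm (dvd_zero p))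
    rw [mem_biUnion]
    refine ⟨e, ?_, ?_⟩
    · rw [mem_range, Nat.lt_succ_iff]
      apply Nat.le_log_of_pow_le (by norm_num)
      calc 2 ^ e ≤ p ^ e := Nat.pow_le_pow_left hp2 e
        _ ≤ p ^ e * m := Nat.le_mul_of_pos_right _ hm0
        _ ≤ x := by rw [← hnm]; exact hnx
    · rw [mem_image]
      refine ⟨(m / p, m % p), ?_, ?_⟩
      · rw [mem_product, mem_filter, mem_range, mem_range]
        refine ⟨⟨?_, hZ⟩, Nat.mod_lt m hp0⟩
        rw [Nat.lt_succ_iff, Nat.le_div_iff_mul_le (by positivity)]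
        calc m / p * p ^ 2 = (m / p * p) * p := by ring
          _ ≤ m * p := Nat.mul_le_mul_right _ (Nat.div_mul_le_self m p)
          _ ≤ p ^ e * m := by
              rw [mul_comm]
              exact Nat.mul_le_mul_right _ (Nat.le_self_pow (by omega) p)
          _ ≤ x := by rw [← hnm]; exact hnx
      · simp only
        rw [Nat.div_add_mod, ← hnm]
  refine (Finset.card_le_card h1).trans (Finset.card_biUnion_le.trans ?_)
  refine Finset.sum_le_sum fun e _ => ?_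
  refine Finset.card_image_le.trans ?_
  rw [Finset.card_product, card_range]
  unfold cz
  exact le_rfl

lemma cz_real {p : ℕ} [hp : Fact p.Prime] (h2 : p ≠ 2) (j z : ℕ) (hz : 1 ≤ z) (y : ℝ) (hy : (2 * z : ℝ) ≤ y) :
    (cz p j z : ℝ) ^ 4 ≤ y ^ 3 := by
  have h := cz_bound (p := p) h2 j z hz
  have h1 : ((cz p j z : ℝ)) ^ 4 ≤ (2 * z : ℝ) ^ 3 := by exact_mod_cast h
  exact h1.trans (pow_le_pow_left₀ (by positivity) hy 3)

lemma four_pow (x : ℝ) (hx : 0 ≤ x) : (x ^ (3 / 4 : ℝ)) ^ 4 = x ^ 3 := by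
  rw [← Real.rpow_natCast, ← Real.rpow_mul hx, ← Real.rpow_natCast]
  norm_num

/-- **Multiples of one prime.** -/
theorem card_multiples (h2 : p ≠ 2) (x : ℕ) (hx : 1 ≤ x) :
    (((Icc 1 x).filter fun n => p ∣ n ∧ ¬ p ∣ (R n).den).card : ℝ) ≤
      3 * p * (x : ℝ) ^ (3 / 4 : ℝ) * (Nat.log 2 x + 1) := by
  have h := card_S (p := p) x
  have hx0 : (1 : ℝ) ≤ x := by exact_mod_cast hx
  have h1 : ∀ e, (cz p (e + 1) (x / p ^ 2 + 1) : ℝ) ≤ 3 * (x : ℝ) ^ (3 / 4 : ℝ) := by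
    intro e
    have e1 : ((x / p ^ 2 + 1 : ℕ) : ℝ) ≤ 2 * x := by
      have : x / p ^ 2 + 1 ≤ 2 * x := by
        have := Nat.div_le_self x (p ^ 2)
        omega
      exact_mod_cast this
    have e2 := cz_real (p := p) h2 (e + 1) (x / p ^ 2 + 1) (Nat.succ_pos _) (4 * x) (by linarith)
    have e3 : (3 * (x : ℝ) ^ (3 / 4 : ℝ)) ^ 4 = 81 * (x : ℝ) ^ 3 := by
      rw [mul_pow, four_pow _ (by linarith)]; norm_num
    have e4 : (cz p (e + 1) (x / p ^ 2 + 1) : ℝ) ^ 4 ≤ (3 * (x : ℝ) ^ (3 / 4 : ℝ)) ^ 4 := by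
      rw [e3]
      have : (0 : ℝ) ≤ (x : ℝ) ^ 3 := by positivity
      calc _ ≤ (4 * (x : ℝ)) ^ 3 := e2
        _ = 64 * (x : ℝ) ^ 3 := by ring
        _ ≤ 81 * (x : ℝ) ^ 3 := by linarith
    exact (pow_le_pow_iff_left₀ (by positivity) (by positivity) (by norm_num)).mp e4
  calc (((Icc 1 x).filter fun n => p ∣ n ∧ ¬ p ∣ (R n).den).card : ℝ)
      ≤ ((∑ e ∈ range (Nat.log 2 x + 1), cz p (e + 1) (x / p ^ 2 + 1) * p : ℕ) : ℝ) := by
        exact_mod_cast h
    _ = ∑ e ∈ range (Nat.log 2 x + 1), (cz p (e + 1) (x / p ^ 2 + 1) : ℝ) * p := by push_cast; rfl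
    _ ≤ ∑ _e ∈ range (Nat.log 2 x + 1), 3 * (x : ℝ) ^ (3 / 4 : ℝ) * p :=
        Finset.sum_le_sum fun e _ => mul_le_mul_of_nonneg_right (h1 e) (by positivity)
    _ = 3 * p * (x : ℝ) ^ (3 / 4 : ℝ) * (Nat.log 2 x + 1) := by
        rw [Finset.sum_const, card_range, nsmul_eq_mul]
        push_cast; ring

/-- The same with the saving in `p`, for `p² ≤ x`. -/
theorem card_multiples' (h2 : p ≠ 2) (x : ℕ) (hx : p ^ 2 ≤ x) :
    (((Icc 1 x).filter fun n => p ∣ n ∧ ¬ p ∣ (R n).den).card : ℝ) ≤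
      3 * (x : ℝ) ^ (3 / 4 : ℝ) * (Nat.log 2 x + 1) * (1 / Real.sqrt p) := by
  have h := card_S (p := p) x
  have hp0 : (0 : ℝ) < p := by exact_mod_cast hp.out.pos
  have hxp : ((p : ℝ)) ^ 2 ≤ x := by exact_mod_cast hx
  have hx0 : (0 : ℝ) < x := lt_of_lt_of_le (by positivity) hxp
  have hsq : 0 < Real.sqrt p := Real.sqrt_pos.mpr hp0
  have h1 : ∀ e, (cz p (e + 1) (x / p ^ 2 + 1) : ℝ) * p ≤
      3 * (x : ℝ) ^ (3 / 4 : ℝ) * (1 / Real.sqrt p) := by
    intro e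
    have e1 : ((x / p ^ 2 + 1 : ℕ) : ℝ) ≤ 2 * (x / (p : ℝ) ^ 2) := by
      push_cast
      have e5 : ((x / p ^ 2 : ℕ) : ℝ) ≤ (x : ℝ) / (p : ℝ) ^ 2 := by
        have := @Nat.cast_div_le ℝ _ _ _ x (p ^ 2)
        push_cast at this
        exact this
      have e6 : 1 ≤ (x : ℝ) / (p : ℝ) ^ 2 := by
        rw [le_div_iff₀ (by positivity)]; linarith
      linarith
    have e2 := cz_real (p := p) h2 (e + 1) (x / p ^ 2 + 1) (Nat.succ_pos _) (4 * (x / (p : ℝ) ^ 2)) (by linarith)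
    have e3 : (3 * (x : ℝ) ^ (3 / 4 : ℝ) * (1 / Real.sqrt p)) ^ 4 = 81 * (x : ℝ) ^ 3 / p ^ 2 := by
      have e7 : Real.sqrt p ^ 4 = (p : ℝ) ^ 2 := by
        have := Real.sq_sqrt hp0.le
        calc Real.sqrt p ^ 4 = (Real.sqrt p ^ 2) ^ 2 := by ring
          _ = (p : ℝ) ^ 2 := by rw [this]
      rw [mul_pow, mul_pow, four_pow _ hx0.le, div_pow, e7]
      ring
    have e4 : ((cz p (e + 1) (x / p ^ 2 + 1) : ℝ) * p) ^ 4 ≤
        (3 * (x : ℝ) ^ (3 / 4 : ℝ) * (1 / Real.sqrt p)) ^ 4 := by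
      rw [e3, mul_pow]
      calc (cz p (e + 1) (x / p ^ 2 + 1) : ℝ) ^ 4 * (p : ℝ) ^ 4
          ≤ (4 * (x / (p : ℝ) ^ 2)) ^ 3 * (p : ℝ) ^ 4 :=
            mul_le_mul_of_nonneg_right e2 (by positivity)
        _ = 64 * (x : ℝ) ^ 3 / p ^ 2 := by field_simp; ring
        _ ≤ 81 * (x : ℝ) ^ 3 / p ^ 2 := by gcongr; norm_num
    exact (pow_le_pow_iff_left₀ (by positivity) (by positivity) (by norm_num)).mp e4
  calc (((Icc 1 x).filter fun n => p ∣ n ∧ ¬ p ∣ (R n).den).card : ℝ)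
      ≤ ((∑ e ∈ range (Nat.log 2 x + 1), cz p (e + 1) (x / p ^ 2 + 1) * p : ℕ) : ℝ) := by
        exact_mod_cast h
    _ = ∑ e ∈ range (Nat.log 2 x + 1), (cz p (e + 1) (x / p ^ 2 + 1) : ℝ) * p := by push_cast; rfl
    _ ≤ ∑ _e ∈ range (Nat.log 2 x + 1), 3 * (x : ℝ) ^ (3 / 4 : ℝ) * (1 / Real.sqrt p) :=
        Finset.sum_le_sum fun e _ => h1 e
    _ = 3 * (x : ℝ) ^ (3 / 4 : ℝ) * (Nat.log 2 x + 1) * (1 / Real.sqrt p) := by
        rw [Finset.sum_const, card_range, nsmul_eq_mul]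
        push_cast; ring

end prime

lemma sum_inv_sqrt (N : ℕ) : ∑ p ∈ range (N + 1), 1 / Real.sqrt p ≤ 2 * Real.sqrt N := by
  induction N with
  | zero => simp
  | succ N ih =>
    rw [Finset.sum_range_succ]
    have h0 : (0 : ℝ) ≤ N := Nat.cast_nonneg N
    have hb : 0 < Real.sqrt ((N + 1 : ℕ) : ℝ) := Real.sqrt_pos.mpr (by positivity)
    have ha2 := Real.sq_sqrt h0
    have hb2 := Real.sq_sqrt (show (0 : ℝ) ≤ ((N + 1 : ℕ) : ℝ) by positivity)
    push_cast at hb hb2 ⊢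
    set a := Real.sqrt (N : ℝ)
    set b := Real.sqrt ((N : ℝ) + 1)
    have h1 : 1 / b ≤ 2 * b - 2 * a := by
      rw [div_le_iff₀ hb]
      nlinarith [sq_nonneg (a - b)]
    linarith

/-- The composite odd `n ≤ x` whose least prime factor does not divide the denominator. -/
noncomputable def Exc (x : ℕ) : Finset ℕ :=
  (Icc 1 x).filter fun n => n ≠ 1 ∧ ¬ n.Prime ∧ Odd n ∧ ¬ n.minFac ∣ (R n).den

lemma minFac_facts {n x : ℕ} (h : n ∈ Exc x) : n.minFac.Prime ∧ n.minFac ≠ 2 ∧ n.minFac ^ 2 ≤ x := by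
  unfold Exc at h
  rw [mem_filter, mem_Icc] at h
  obtain ⟨⟨h1, h2⟩, h3, h4, h5, h6⟩ := h
  refine ⟨Nat.minFac_prime h3, ?_, ?_⟩
  · intro h7
    have := Nat.minFac_dvd n
    rw [h7] at this
    exact (Nat.not_even_iff_odd.mpr h5) (even_iff_two_dvd.mpr this)
  · exact (Nat.minFac_sq_le_self (by omega) h4).trans h2

/-- Least prime factors below `w^7`. -/
lemma card_small (x w : ℕ) (hw : x < w ^ 18) :
    (((Exc x).filter fun n => n.minFac < w ^ 7).card : ℝ) ≤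
      6 * (Nat.log 2 x + 1) * (w : ℝ) ^ 17 := by
  classical
  have h1 : ((Exc x).filter fun n => n.minFac < w ^ 7) ⊆
      (range (w ^ 7)).biUnion fun p => (Exc x).filter fun n => n.minFac = p := by
    intro n hn
    rw [mem_filter] at hn
    rw [mem_biUnion]
    exact ⟨n.minFac, mem_range.mpr hn.2, mem_filter.mpr ⟨hn.1, rfl⟩⟩
  have h2 : ∀ p ∈ range (w ^ 7), (((Exc x).filter fun n => n.minFac = p).card : ℝ) ≤
      3 * (x : ℝ) ^ (3 / 4 : ℝ) * (Nat.log 2 x + 1) * (1 / Real.sqrt p) := by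
    intro p _
    rcases ((Exc x).filter fun n => n.minFac = p).eq_empty_or_nonempty with h0 | ⟨n0, hn0⟩
    · rw [h0, card_empty]
      push_cast
      positivity
    · rw [mem_filter] at hn0
      obtain ⟨hp, hp2, hpx⟩ := minFac_facts hn0.1
      rw [hn0.2] at hp hp2 hpx
      have : Fact p.Prime := ⟨hp⟩
      refine le_trans ?_ (card_multiples' (p := p) hp2 x hpx)
      norm_cast
      apply Finset.card_le_card
      intro n hn
      rw [mem_filter] at hn
      unfold Exc at hn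
      rw [mem_filter] at hn
      rw [mem_filter]
      refine ⟨hn.1.1, ?_, ?_⟩
      · rw [← hn.2]; exact Nat.minFac_dvd n
      · have := hn.1.2.2.2.2
        rwa [hn.2] at this
  have hx34 : (x : ℝ) ^ (3 / 4 : ℝ) * Real.sqrt ((w ^ 7 : ℕ) : ℝ) ≤ (w : ℝ) ^ 17 := by
    have hw0 : (0 : ℝ) ≤ w := Nat.cast_nonneg w
    have e1 : (x : ℝ) ≤ (w : ℝ) ^ 18 := by exact_mod_cast hw.le
    have e2 : ((x : ℝ) ^ (3 / 4 : ℝ) * Real.sqrt ((w ^ 7 : ℕ) : ℝ)) ^ 4 ≤ ((w : ℝ) ^ 17) ^ 4 := by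
      rw [mul_pow, four_pow _ (Nat.cast_nonneg x)]
      have e3 : Real.sqrt ((w ^ 7 : ℕ) : ℝ) ^ 4 = ((w : ℝ) ^ 7) ^ 2 := by
        have := Real.sq_sqrt (show (0 : ℝ) ≤ ((w ^ 7 : ℕ) : ℝ) by positivity)
        calc Real.sqrt ((w ^ 7 : ℕ) : ℝ) ^ 4 = (Real.sqrt ((w ^ 7 : ℕ) : ℝ) ^ 2) ^ 2 := by ring
          _ = ((w : ℝ) ^ 7) ^ 2 := by rw [this]; push_cast; rfl
      rw [e3]
      calc (x : ℝ) ^ 3 * ((w : ℝ) ^ 7) ^ 2 ≤ ((w : ℝ) ^ 18) ^ 3 * ((w : ℝ) ^ 7) ^ 2 := by gcongr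
        _ = ((w : ℝ) ^ 17) ^ 4 := by ring
    exact (pow_le_pow_iff_left₀ (by positivity) (by positivity) (by norm_num)).mp e2
  calc (((Exc x).filter fun n => n.minFac < w ^ 7).card : ℝ)
      ≤ ((∑ p ∈ range (w ^ 7), ((Exc x).filter fun n => n.minFac = p).card : ℕ) : ℝ) := by
        exact_mod_cast (Finset.card_le_card h1).trans Finset.card_biUnion_le
    _ = ∑ p ∈ range (w ^ 7), (((Exc x).filter fun n => n.minFac = p).card : ℝ) := by push_cast; rfl
    _ ≤ ∑ p ∈ range (w ^ 7),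
        3 * (x : ℝ) ^ (3 / 4 : ℝ) * (Nat.log 2 x + 1) * (1 / Real.sqrt p) := Finset.sum_le_sum h2
    _ = 3 * (x : ℝ) ^ (3 / 4 : ℝ) * (Nat.log 2 x + 1) * ∑ p ∈ range (w ^ 7), 1 / Real.sqrt p := by
        rw [Finset.mul_sum]
    _ ≤ 3 * (x : ℝ) ^ (3 / 4 : ℝ) * (Nat.log 2 x + 1) * (2 * Real.sqrt ((w ^ 7 : ℕ) : ℝ)) := by
        apply mul_le_mul_of_nonneg_left _ (by positivity)
        refine le_trans ?_ (sum_inv_sqrt (w ^ 7))
        apply Finset.sum_le_sum_of_subset_of_nonneg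
        · intro q hq
          rw [mem_range] at hq ⊢
          omega
        · intro q _ _
          positivity
    _ = 6 * (Nat.log 2 x + 1) * ((x : ℝ) ^ (3 / 4 : ℝ) * Real.sqrt ((w ^ 7 : ℕ) : ℝ)) := by ring
    _ ≤ 6 * (Nat.log 2 x + 1) * (w : ℝ) ^ 17 := mul_le_mul_of_nonneg_left hx34 (by positivity)

/-- Least prime factors from `w^7` on. -/
lemma card_large (x w : ℕ) (hw : x < w ^ 18) :
    ((Exc x).filter fun n => w ^ 7 ≤ n.minFac).card ≤
      (Nat.log 2 x + 1) * w ^ 9 + w ^ 4 * (w ^ 4 * (Nat.log 2 (w ^ 4) + 4)) *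
        ((Nat.log 2 x + 1) * w ^ 9) := by
  classical
  have h1 : ((Exc x).filter fun n => w ^ 7 ≤ n.minFac) ⊆
      ((range (Nat.log 2 x + 1)) ×ˢ (range (w ^ 9))).image (fun q => q.2 ^ q.1) ∪
      (Icc 1 (w ^ 4)).biUnion fun m => (K m).primeFactors.biUnion fun p =>
        ((range (Nat.log 2 x + 1)) ×ˢ (range (w ^ 9))).image fun q => p ^ q.1 * (p * m + q.2) := by
    intro n hn
    rw [mem_filter] at hn
    obtain ⟨hnE, hpw⟩ := hn
    obtain ⟨hp, hp2, hpx⟩ := minFac_facts hnE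
    unfold Exc at hnE
    rw [mem_filter, mem_Icc] at hnE
    obtain ⟨⟨hn1, hnx⟩, hne, hnp, hodd, hden⟩ := hnE
    have hpn := Nat.minFac_dvd n
    have hmin : ∀ q, q ∣ n → q ≠ 1 → n.minFac ≤ q.minFac := fun q hq hq1 =>
      Nat.minFac_le_of_dvd (Nat.minFac_prime hq1).two_le ((Nat.minFac_dvd q).trans hq)
    set p := n.minFac with hpdef
    have : Fact p.Prime := ⟨hp⟩
    obtain ⟨e, m, he, hm, hnm, hZ⟩ := decomp hn1 hpn hden
    have hp0 := hp.pos
    have hm0 : 0 < m := Nat.pos_of_ne_zero (by rintro rfl; exact hm (dvd_zero p))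
    have hw0 : 0 < w := by
      rcases Nat.eq_zero_or_pos w with h | h
      · subst h; simp at hw
      · exact h
    have hp9 : p < w ^ 9 := by
      by_contra hlt
      have : (w ^ 9) ^ 2 ≤ p ^ 2 := Nat.pow_le_pow_left (by omega) 2
      rw [← pow_mul] at this
      norm_num at this
      omega
    have hE : e < Nat.log 2 x + 1 := by
      rw [Nat.lt_succ_iff]
      apply Nat.le_log_of_pow_le (by norm_num)
      calc 2 ^ e ≤ p ^ e := Nat.pow_le_pow_left hp.two_le e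
        _ ≤ p ^ e * m := Nat.le_mul_of_pos_right _ hm0
        _ ≤ x := by rw [← hnm]; exact hnx
    rw [mem_union]
    rcases Nat.eq_zero_or_pos (m / p) with h0 | h0
    · left
      have hmp : m < p := (Nat.div_eq_zero_iff_lt hp0).mp h0
      have hm1 : m = 1 := by
        by_contra hm1
        have e1 := hmin m (by rw [hnm]; exact Dvd.intro_left _ rfl) hm1
        have e2 := Nat.minFac_le hm0
        omega
      rw [mem_image]
      refine ⟨(e, p), ?_, ?_⟩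
      · rw [mem_product, mem_range, mem_range]
        exact ⟨hE, hp9⟩
      · simp only
        rw [hnm, hm1, mul_one]
    · right
      have hm4 : m / p < w ^ 4 := by
        rw [Nat.div_lt_iff_lt_mul hp0]
        have e1 : p * m ≤ p ^ e * m := Nat.mul_le_mul_right _ (Nat.le_self_pow (by omega) p)
        have e2 : p * m < w ^ 18 := by
          calc p * m ≤ p ^ e * m := e1
            _ ≤ x := by rw [← hnm]; exact hnx
            _ < w ^ 18 := hw
        by_contra hlt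
        have e3 : w ^ 4 * p ≤ m := by omega
        have e4 : w ^ 18 ≤ p * m := by
          calc w ^ 18 = w ^ 7 * (w ^ 4 * w ^ 7) := by ring
            _ ≤ p * (w ^ 4 * p) := Nat.mul_le_mul hpw (Nat.mul_le_mul_left _ hpw)
            _ ≤ p * m := Nat.mul_le_mul_left _ e3
        omega
      have hmlt : m / p < p := by
        calc m / p < w ^ 4 := hm4
          _ ≤ w ^ 7 := Nat.pow_le_pow_right hw0 (by norm_num)
          _ ≤ p := hpw
      have hs := s_eq_zero_of_Z hmlt hZ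
      have hK := K_dvd hmlt hs
      rw [mem_biUnion]
      refine ⟨m / p, mem_Icc.mpr ⟨h0, hm4.le⟩, ?_⟩
      rw [mem_biUnion]
      refine ⟨p, Nat.mem_primeFactors.mpr ⟨hp, hK, (K_pos h0).ne'⟩, ?_⟩
      rw [mem_image]
      refine ⟨(e, m % p), ?_, ?_⟩
      · rw [mem_product, mem_range, mem_range]
        exact ⟨hE, (Nat.mod_lt m hp0).trans hp9⟩
      · simp only
        rw [Nat.div_add_mod, ← hnm]
  refine (Finset.card_le_card h1).trans ((Finset.card_union_le _ _).trans ?_)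
  refine Nat.add_le_add ?_ ?_
  · refine Finset.card_image_le.trans ?_
    rw [card_product, card_range, card_range]
  · refine Finset.card_biUnion_le.trans ?_
    calc ∑ m ∈ Icc 1 (w ^ 4), ((K m).primeFactors.biUnion fun p =>
          ((range (Nat.log 2 x + 1)) ×ˢ (range (w ^ 9))).image fun q => p ^ q.1 * (p * m + q.2)).card
        ≤ ∑ _m ∈ Icc 1 (w ^ 4), (w ^ 4 * (Nat.log 2 (w ^ 4) + 4)) *
            ((Nat.log 2 x + 1) * w ^ 9) := by
          refine Finset.sum_le_sum fun m hm => ?_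
          rw [mem_Icc] at hm
          refine Finset.card_biUnion_le.trans ?_
          calc ∑ p ∈ (K m).primeFactors, (((range (Nat.log 2 x + 1)) ×ˢ (range (w ^ 9))).image
                fun q => p ^ q.1 * (p * m + q.2)).card
              ≤ ∑ _p ∈ (K m).primeFactors, (Nat.log 2 x + 1) * w ^ 9 := by
                refine Finset.sum_le_sum fun p _ => ?_
                refine Finset.card_image_le.trans ?_
                rw [card_product, card_range, card_range]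
            _ = (K m).primeFactors.card * ((Nat.log 2 x + 1) * w ^ 9) := by
                rw [Finset.sum_const, smul_eq_mul]
            _ ≤ (w ^ 4 * (Nat.log 2 (w ^ 4) + 4)) * ((Nat.log 2 x + 1) * w ^ 9) := by
                apply Nat.mul_le_mul_right
                refine (card_primeFactors_K hm.1).trans ?_
                exact Nat.mul_le_mul hm.2 (Nat.add_le_add_right (Nat.log_mono_right hm.2) 4)
      _ = _ := by
          rw [Finset.sum_const, smul_eq_mul, Nat.card_Icc]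
          simp [mul_assoc]

end Pool.Agent.TwoPowSparse
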