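import Pool.Agent.TwoPowSparse.Gap

/-!
# A value of `s` is taken by at most `L^(3/4)` of the first `L` digits
-/

namespace Pool.Agent.TwoPowSparse

open Finset Pool.Agent.TwoPow

variable {p : ℕ} [hp : Fact p.Prime]

lemma card_value (h2 : p ≠ 2) (L : ℕ) (hL : L ≤ p) (c : ZMod p) (D : ℕ) (hD : 1 ≤ D) :
    ((range L).filter fun r => s p r = c).card ≤ (L + D - 1) / D + (D - 1) * (D - 1 - 1) / 2 := by
  classical
  set S := (range L).filter fun r => s p r = c with hS
  set S1 := S.filter fun r => ∀ r' ∈ S, r' < r → r' / D ≠ r / D with hS1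
  set S2 := S.filter fun r => ¬ ∀ r' ∈ S, r' < r → r' / D ≠ r / D with hS2
  have hsplit : S.card = S1.card + S2.card := (Finset.card_filter_add_card_filter_not _).symm
  have h1 : S1.card ≤ (L + D - 1) / D := by
    rw [← Finset.card_range ((L + D - 1) / D)]
    refine Finset.card_le_card_of_injOn (fun r => r / D) ?_ ?_
    · intro r hr
      have hr' := (mem_filter.mp (mem_filter.mp hr).1).1
      rw [mem_range] at hr'
      simp only [Finset.coe_range, Set.mem_Iio]
      have e1 : r + D ≤ L + D - 1 := by omega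
      have e2 : (r + D) / D ≤ (L + D - 1) / D := Nat.div_le_div_right e1
      rw [Nat.add_div_right _ (by omega)] at e2
      omega
    · intro a ha b hb hab
      have ha' := mem_filter.mp ha
      have hb' := mem_filter.mp hb
      rcases lt_trichotomy a b with h | h | h
      · exact absurd hab (hb'.2 a ha'.1 h)
      · exact h
      · exact absurd hab.symm (ha'.2 b hb'.1 h)
  have h3 : S2.card ≤ (D - 1) * (D - 1 - 1) / 2 := by
    set T : ℕ → Finset ℕ := fun i => (range L).filter fun r =>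
      r + (i + 1) < L ∧ s p (r + (i + 1)) = s p r with hT
    have e1 : S2 ⊆ (range (D - 1)).biUnion fun i => (T i).image fun r => r + (i + 1) := by
      intro r hr
      have hr' := mem_filter.mp hr
      have hrS := mem_filter.mp hr'.1
      have h5 := hr'.2
      push Not at h5
      obtain ⟨r', hr'S, hlt, heq⟩ := h5
      have hr'S' := mem_filter.mp hr'S
      rw [mem_biUnion]
      have e2 : r < r' + D := by
        have e3 := Nat.div_add_mod r D
        have e4 := Nat.div_add_mod r' D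
        have e5 := Nat.mod_lt r (show 0 < D by omega)
        rw [← heq] at e3
        omega
      refine ⟨r - r' - 1, mem_range.mpr (by omega), ?_⟩
      rw [mem_image]
      have e6 : r' + (r - r' - 1 + 1) = r := by omega
      refine ⟨r', ?_, e6⟩
      rw [hT, mem_filter, e6]
      exact ⟨hr'S'.1, mem_range.mp hrS.1, hrS.2.trans hr'S'.2.symm⟩
    have e2 : ∀ i, (T i).card ≤ i := by
      intro i
      have := card_gap (p := p) h2 (i + 1) (by omega) (T i) (by
        intro r hr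
        have := (mem_filter.mp hr).2
        exact ⟨by omega, this.2⟩)
      simpa using this
    calc S2.card ≤ ((range (D - 1)).biUnion fun i => (T i).image fun r => r + (i + 1)).card :=
          Finset.card_le_card e1
      _ ≤ ∑ i ∈ range (D - 1), ((T i).image fun r => r + (i + 1)).card := Finset.card_biUnion_le
      _ ≤ ∑ i ∈ range (D - 1), i :=
          Finset.sum_le_sum fun i _ => Finset.card_image_le.trans (e2 i)
      _ = (D - 1) * (D - 1 - 1) / 2 := Finset.sum_range_id _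
  omega

lemma exists_root (k : ℕ) (hk : 1 ≤ k) (L : ℕ) : ∃ D : ℕ, D ^ k ≤ L ∧ L < (D + 1) ^ k := by
  induction L with
  | zero => exact ⟨0, by rw [zero_pow (by omega)], by simp⟩
  | succ L ih =>
    obtain ⟨D, h1, h2⟩ := ih
    rcases Nat.lt_or_ge (L + 1) ((D + 1) ^ k) with h | h
    · exact ⟨D, by omega, h⟩
    · refine ⟨D + 1, h, ?_⟩
      have : (D + 1) ^ k < (D + 1 + 1) ^ k := Nat.pow_lt_pow_left (by omega) (by omega)
      omega

lemma small_check : ∀ L < 1000, 1 ≤ L → ∃ D < 11, 1 ≤ D ∧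
    ((L + D - 1) / D + (D - 1) * (D - 1 - 1) / 2) ^ 4 ≤ L ^ 3 := by
  decide +kernel

lemma exists_block (L : ℕ) (hL : 1 ≤ L) : ∃ D : ℕ, 1 ≤ D ∧
    ((L + D - 1) / D + (D - 1) * (D - 1 - 1) / 2) ^ 4 ≤ L ^ 3 := by
  rcases Nat.lt_or_ge L 1000 with h | h
  · obtain ⟨D, _, h1, h2⟩ := small_check L h hL
    exact ⟨D, h1, h2⟩
  · obtain ⟨D, h1, h2⟩ := exists_root 3 (by norm_num) L
    have hD : 9 ≤ D := by
      by_contra hlt
      have : (D + 1) ^ 3 ≤ 9 ^ 3 := Nat.pow_le_pow_left (by omega) 3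
      omega
    refine ⟨D, by omega, ?_⟩
    obtain ⟨k, rfl⟩ : ∃ k, D = k + 9 := ⟨D - 9, by omega⟩
    have e1 : (L + (k + 9) - 1) / (k + 9) ≤ (k + 9) ^ 2 + 3 * (k + 9) + 3 := by
      rw [Nat.div_le_iff_le_mul_add_pred (by omega)]
      have : (k + 9 + 1) ^ 3 = (k + 9) * ((k + 9) ^ 2 + 3 * (k + 9) + 3) + 1 := by ring
      omega
    have e2 : (k + 9 - 1) * (k + 9 - 1 - 1) / 2 ≤ ((k + 8) * (k + 7)) / 2 := by
      apply Nat.div_le_div_right
      exact Nat.mul_le_mul (by omega) (by omega)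
    have e3 : 2 * ((L + (k + 9) - 1) / (k + 9) + (k + 9 - 1) * (k + 9 - 1 - 1) / 2) ≤
        3 * (k + 9) ^ 2 + 3 * (k + 9) + 8 := by
      have e4 : 2 * ((k + 8) * (k + 7) / 2) ≤ (k + 8) * (k + 7) := Nat.mul_div_le _ _
      have e5 : (k + 8) * (k + 7) + 3 * (k + 9) = (k + 9) ^ 2 + 2 := by ring
      nlinarith
    have e6 : (2 * ((L + (k + 9) - 1) / (k + 9) + (k + 9 - 1) * (k + 9 - 1 - 1) / 2)) ^ 4 ≤
        (3 * (k + 9) ^ 2 + 3 * (k + 9) + 8) ^ 4 := Nat.pow_le_pow_left e3 4
    have e7 : (3 * (k + 9) ^ 2 + 3 * (k + 9) + 8) ^ 4 ≤ 16 * ((k + 9) ^ 3) ^ 3 := by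
      have e : 16 * ((k + 9) ^ 3) ^ 3 = (3 * (k + 9) ^ 2 + 3 * (k + 9) + 8) ^ 4 +
          (225911168 * k ^ 0 + 1300158768 * k ^ 1 + 990596424 * k ^ 2 + 349735320 * k ^ 3 + 71797455 * k ^ 4 + 9293292 * k ^ 5 + 774306 * k ^ 6 + 40500 * k ^ 7 + 1215 * k ^ 8 + 16 * k ^ 9) := by
        ring
      omega
    have e8 : ((k + 9) ^ 3) ^ 3 ≤ L ^ 3 := Nat.pow_le_pow_left h1 3
    have e9 : (2 * ((L + (k + 9) - 1) / (k + 9) + (k + 9 - 1) * (k + 9 - 1 - 1) / 2)) ^ 4 =
        16 * ((L + (k + 9) - 1) / (k + 9) + (k + 9 - 1) * (k + 9 - 1 - 1) / 2) ^ 4 := by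
      rw [mul_pow]
      norm_num
    omega

/-- **Key bound.** The first `L ≤ p` digits contain at most `L^(3/4)` digits with a given value
of `s`. -/
theorem card_value_pow (h2 : p ≠ 2) (L : ℕ) (hL : L ≤ p) (c : ZMod p) :
    ((range L).filter fun r => s p r = c).card ^ 4 ≤ L ^ 3 := by
  rcases Nat.eq_zero_or_pos L with rfl | h0
  · simp
  · obtain ⟨D, h1, h3⟩ := exists_block L h0
    exact (Nat.pow_le_pow_left (card_value h2 L hL c D h1) 4).trans h3

end Pool.Agent.TwoPowSparse
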