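import Pool.Agent.TwoPow.Local

/-!
# How often can `s(d) = ∑_{r ≤ d} 2^r / r` take a value modulo `p`?
-/

namespace Pool.Agent.TwoPowSparse

open Finset Polynomial Pool.Agent.TwoPow

variable {p : ℕ} [hp : Fact p.Prime]

/-- The gap polynomial. -/
noncomputable def gp (p d : ℕ) : (ZMod p)[X] :=
  ∑ i ∈ range d, C ((2 : ZMod p) ^ (i + 1)) * ∏ l ∈ (range d).erase i, (X + C ((l + 1 : ℕ) : ZMod p))

lemma gp_natDegree_lt (d : ℕ) : (gp p d).natDegree ≤ d - 1 := by
  unfold gp
  refine Polynomial.natDegree_sum_le_of_forall_le _ _ fun i hi => ?_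
  refine (Polynomial.natDegree_C_mul_le _ _).trans ?_
  refine (Polynomial.natDegree_prod_le _ _).trans ?_
  have h1 : ∀ l ∈ (range d).erase i, (X + C ((l + 1 : ℕ) : ZMod p)).natDegree = 1 := by
    intro l _
    exact Polynomial.natDegree_X_add_C _
  rw [Finset.sum_congr rfl h1, Finset.sum_const, Finset.card_erase_of_mem hi, card_range]
  simp

lemma natCast_ne_zero_of_lt {i : ℕ} (h1 : 1 ≤ i) (h2 : i < p) : (i : ZMod p) ≠ 0 := by
  intro h
  rw [ZMod.natCast_eq_zero_iff] at h
  exact absurd (Nat.le_of_dvd h1 h) (by omega)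

lemma two_ne_zero_zmod (h2 : p ≠ 2) : (2 : ZMod p) ≠ 0 := by
  intro h
  have h1 : ((2 : ℕ) : ZMod p) = 0 := by exact_mod_cast h
  rw [ZMod.natCast_eq_zero_iff] at h1
  have := (Nat.prime_dvd_prime_iff_eq hp.out Nat.prime_two).mp h1
  exact h2 this

lemma gp_ne_zero (h2 : p ≠ 2) (d : ℕ) (hd : 1 ≤ d) (hdp : d < p) : gp p d ≠ 0 := by
  intro h
  have h1 : (gp p d).eval (-1) = 0 := by rw [h]; simp
  unfold gp at h1
  rw [Polynomial.eval_finsetSum] at h1
  rw [Finset.sum_eq_single 0] at h1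
  · rw [Polynomial.eval_mul, Polynomial.eval_C, Polynomial.eval_prod] at h1
    rcases mul_eq_zero.mp h1 with h3 | h3
    · exact pow_ne_zero _ (two_ne_zero_zmod h2) h3
    · rw [Finset.prod_eq_zero_iff] at h3
      obtain ⟨l, hl, h4⟩ := h3
      rw [mem_erase, mem_range] at hl
      rw [Polynomial.eval_add, Polynomial.eval_X, Polynomial.eval_C] at h4
      push_cast at h4
      have h5 : (l : ZMod p) = 0 := by linear_combination h4
      exact natCast_ne_zero_of_lt (by omega) (by omega) h5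
  · intro i hi hi0
    rw [Polynomial.eval_mul, Polynomial.eval_prod]
    have h3 : (∏ l ∈ (range d).erase i, (X + C ((l + 1 : ℕ) : ZMod p)).eval (-1)) = 0 := by
      apply Finset.prod_eq_zero (i := 0)
      · rw [mem_erase, mem_range]
        exact ⟨fun h => hi0 h.symm, by omega⟩
      · simp
    rw [h3, mul_zero]
  · intro h0
    exact absurd (mem_range.mpr (by omega)) h0

lemma s_add (r d : ℕ) :
    s p (r + d) = s p r + ∑ i ∈ range d, (2 : ZMod p) ^ (r + (i + 1)) * ((r + (i + 1) : ℕ) : ZMod p)⁻¹ := by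
  induction d with
  | zero => simp
  | succ d ih =>
    rw [Finset.sum_range_succ, ← add_assoc (s p r) _ _, ← ih]
    unfold s
    rw [← add_assoc r d 1, Finset.sum_Icc_succ_top (by omega)]

/-- `s(r+d) = s(r)` makes `r` a root of the gap polynomial. -/
lemma gp_root (h2 : p ≠ 2) {r d : ℕ} (hrd : r + d < p) (h : s p (r + d) = s p r) :
    (gp p d).eval (r : ZMod p) = 0 := by
  have h1 : ∑ i ∈ range d, (2 : ZMod p) ^ (r + (i + 1)) * ((r + (i + 1) : ℕ) : ZMod p)⁻¹ = 0 := by
    have := s_add (p := p) r d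
    rw [h] at this
    linear_combination -this
  have h3 : (gp p d).eval (r : ZMod p) * 2 ^ r =
      (∏ l ∈ range d, ((r : ZMod p) + ((l + 1 : ℕ) : ZMod p))) *
      ∑ i ∈ range d, (2 : ZMod p) ^ (r + (i + 1)) * ((r + (i + 1) : ℕ) : ZMod p)⁻¹ := by
    unfold gp
    rw [Polynomial.eval_finsetSum, Finset.sum_mul, Finset.mul_sum]
    refine Finset.sum_congr rfl fun i hi => ?_
    rw [Polynomial.eval_mul, Polynomial.eval_C, Polynomial.eval_prod,
      ← Finset.mul_prod_erase (range d) (fun l => (r : ZMod p) + ((l + 1 : ℕ) : ZMod p)) hi]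
    have h4 : ((r : ZMod p) + ((i + 1 : ℕ) : ZMod p)) * ((r + (i + 1) : ℕ) : ZMod p)⁻¹ = 1 := by
      have h5 : ((r + (i + 1) : ℕ) : ZMod p) ≠ 0 :=
        natCast_ne_zero_of_lt (by omega) (by rw [mem_range] at hi; omega)
      have h6 : (r : ZMod p) + ((i + 1 : ℕ) : ZMod p) = ((r + (i + 1) : ℕ) : ZMod p) := by
        push_cast; ring
      rw [h6, mul_inv_cancel₀ h5]
    have h7 : ∀ l, (X + C ((l + 1 : ℕ) : ZMod p)).eval (r : ZMod p) =
        (r : ZMod p) + ((l + 1 : ℕ) : ZMod p) := by intro l; simp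
    simp only [h7]
    calc _ = (2 : ZMod p) ^ (r + (i + 1)) *
          (∏ x ∈ (range d).erase i, ((r : ZMod p) + ((x + 1 : ℕ) : ZMod p))) := by ring
      _ = (2 : ZMod p) ^ (r + (i + 1)) *
          (∏ x ∈ (range d).erase i, ((r : ZMod p) + ((x + 1 : ℕ) : ZMod p))) *
          (((r : ZMod p) + ((i + 1 : ℕ) : ZMod p)) * ((r + (i + 1) : ℕ) : ZMod p)⁻¹) := by
          rw [h4, mul_one]
      _ = _ := by ring
  rw [h1, mul_zero] at h3
  exact (mul_eq_zero.mp h3).resolve_right (pow_ne_zero _ (two_ne_zero_zmod h2))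

/-- At most `d - 1` starting points of pairs with gap `d`. -/
lemma card_gap (h2 : p ≠ 2) (d : ℕ) (hd : 1 ≤ d) (S : Finset ℕ)
    (hS : ∀ r ∈ S, r + d < p ∧ s p (r + d) = s p r) : S.card ≤ d - 1 := by
  classical
  rcases S.eq_empty_or_nonempty with rfl | ⟨r0, hr0⟩
  · simp
  have hdp : d < p := by have := (hS r0 hr0).1; omega
  have h0 := gp_ne_zero (p := p) h2 d hd hdp
  have h1 : S.card ≤ (gp p d).roots.toFinset.card := by
    refine Finset.card_le_card_of_injOn (fun r => (r : ZMod p)) ?_ ?_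
    · intro r hr
      have h := hS r hr
      simp only [Finset.mem_coe, Multiset.mem_toFinset]
      rw [Polynomial.mem_roots h0]
      exact gp_root h2 h.1 h.2
    · intro a ha b hb hab
      have h3 : (a : ZMod p) = (b : ZMod p) := hab
      have ha' := (hS a ha).1
      have hb' := (hS b hb).1
      rw [ZMod.natCast_eq_natCast_iff'] at h3
      rwa [Nat.mod_eq_of_lt (by omega), Nat.mod_eq_of_lt (by omega)] at h3
  calc S.card ≤ (gp p d).roots.toFinset.card := h1
    _ ≤ Multiset.card (gp p d).roots := Multiset.toFinset_card_le _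
    _ ≤ (gp p d).natDegree := Polynomial.card_roots' _
    _ ≤ d - 1 := gp_natDegree_lt d

end Pool.Agent.TwoPowSparse
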