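import Pool.Agent.TwoPowSparse.Tree

/-!
# From `R(n)` to the tree
-/

namespace Pool.Agent.TwoPowSparse

open Finset Pool.Agent.TwoPow

variable {p : ℕ} [hp : Fact p.Prime]

/-- If `R(p^e m)` is `p`-integral (`e ≥ 1`, `p ∤ m`) then `m / p` lies in the tree. -/
lemma Z_of_R {e m : ℕ} (he : 1 ≤ e) (hm : p.Coprime m) (z : ℤ_[p])
    (h : ((R (p ^ e * m) : ℚ) : ℚ_[p]) = z) : Z p (e + 1) (m / p) := by
  obtain ⟨w, hw⟩ := A_sub_of_integral he hm z h
  exact Z_of_integral (2 * pinv p m + p * w) (by rw [hw]; push_cast; rfl)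

/-- If `p` does not divide the denominator of `x`, then `x` is a `p`-adic integer. -/
lemma integral_of_not_dvd_den (x : ℚ) (h : ¬ p ∣ x.den) : ∃ z : ℤ_[p], ((x : ℚ) : ℚ_[p]) = z := by
  have hcop : p.Coprime x.den := (Nat.Prime.coprime_iff_not_dvd hp.out).mpr h
  refine ⟨(x.num : ℤ_[p]) * pinv p x.den, ?_⟩
  push_cast
  rw [coe_pinv hcop]
  conv_lhs => rw [← Rat.num_div_den x]
  push_cast
  rw [div_eq_mul_inv]

/-- The integer `m! ∑_{k ≤ m} 2^k / k`. -/
def K (m : ℕ) : ℕ := ∑ k ∈ Icc 1 m, 2 ^ k * (m.factorial / k)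

lemma K_pos {m : ℕ} (hm : 1 ≤ m) : 0 < K m := by
  unfold K
  refine Finset.sum_pos (fun k hk => ?_) ⟨1, mem_Icc.mpr ⟨le_rfl, hm⟩⟩
  rw [mem_Icc] at hk
  exact Nat.mul_pos (by positivity) (Nat.div_pos ((Nat.le_of_dvd m.factorial_pos
    (Nat.dvd_factorial hk.1 hk.2))) hk.1)

lemma K_dvd {m : ℕ} (hmp : m < p) (h : s p m = 0) : p ∣ K m := by
  rw [← ZMod.natCast_eq_zero_iff]
  have h1 : ((K m : ℕ) : ZMod p) = (m.factorial : ZMod p) * s p m := by
    unfold K s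
    rw [Finset.mul_sum]
    push_cast
    refine Finset.sum_congr rfl fun k hk => ?_
    rw [mem_Icc] at hk
    have h2 := natCast_ne_zero_of_lt (p := p) hk.1 (by omega)
    have h3 : ((m.factorial / k : ℕ) : ZMod p) = (m.factorial : ZMod p) * (k : ZMod p)⁻¹ := by
      obtain ⟨t, ht⟩ := Nat.dvd_factorial hk.1 hk.2
      rw [ht, Nat.mul_div_cancel_left _ hk.1]
      push_cast
      rw [mul_comm (k : ZMod p), mul_assoc, mul_inv_cancel₀ h2, mul_one]
    rw [h3]; ring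
  rw [h1, h, mul_zero]

/-- `K m < 2^(m (log₂ m + 3))`. -/
lemma K_lt {m : ℕ} (hm : 1 ≤ m) : K m < 2 ^ (m * (Nat.log 2 m + 4)) := by
  have h1 : K m ≤ m * (2 ^ m * m.factorial) := by
    unfold K
    calc ∑ k ∈ Icc 1 m, 2 ^ k * (m.factorial / k) ≤ ∑ _k ∈ Icc 1 m, 2 ^ m * m.factorial := by
          refine Finset.sum_le_sum fun k hk => ?_
          rw [mem_Icc] at hk
          exact Nat.mul_le_mul (Nat.pow_le_pow_right (by norm_num) hk.2) (Nat.div_le_self _ _)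
      _ = m * (2 ^ m * m.factorial) := by simp
  have h2 : m < 2 ^ (Nat.log 2 m + 1) := Nat.lt_pow_succ_log_self (by norm_num) m
  have h3 : m.factorial ≤ 2 ^ (m * (Nat.log 2 m + 1)) := by
    calc m.factorial ≤ m ^ m := Nat.factorial_le_pow m
      _ ≤ (2 ^ (Nat.log 2 m + 1)) ^ m := Nat.pow_le_pow_left h2.le m
      _ = 2 ^ (m * (Nat.log 2 m + 1)) := by rw [← pow_mul, mul_comm]
  have h4 : m < 2 ^ m := Nat.lt_two_pow_self
  calc K m ≤ m * (2 ^ m * m.factorial) := h1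
    _ < 2 ^ m * (2 ^ m * 2 ^ (m * (Nat.log 2 m + 1))) := by
        apply Nat.mul_lt_mul_of_lt_of_le h4 (Nat.mul_le_mul_left _ h3) (by positivity)
    _ = 2 ^ (m * (Nat.log 2 m + 3)) := by rw [← pow_add, ← pow_add]; congr 1; ring
    _ ≤ 2 ^ (m * (Nat.log 2 m + 4)) := Nat.pow_le_pow_right (by norm_num) (by nlinarith)

/-- The number of prime factors of `K m`. -/
lemma card_primeFactors_K {m : ℕ} (hm : 1 ≤ m) :
    (K m).primeFactors.card ≤ m * (Nat.log 2 m + 4) := by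
  have h1 : 2 ^ (K m).primeFactors.card ≤ K m := by
    calc 2 ^ (K m).primeFactors.card = ∏ _q ∈ (K m).primeFactors, 2 := by
          rw [Finset.prod_const]
      _ ≤ ∏ q ∈ (K m).primeFactors, q :=
          Finset.prod_le_prod' fun q hq => (Nat.prime_of_mem_primeFactors hq).two_le
      _ ≤ K m := Nat.le_of_dvd (K_pos hm) (Nat.prod_primeFactors_dvd _)
  have h2 := lt_of_le_of_lt h1 (K_lt hm)
  exact ((Nat.pow_lt_pow_iff_right (by norm_num)).mp h2).le

end Pool.Agent.TwoPowSparse
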