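import Pool.Agent.TwoPowSparse.Count

/-!
# The exceptional set is small
-/

namespace Pool.Agent.TwoPowSparse

open Finset Pool.Agent.TwoPow

lemma log2_le (x : ℕ) (hx : 1 ≤ x) : (Nat.log 2 x : ℝ) ≤ Real.log x / Real.log 2 := by
  have hl2 : 0 < Real.log 2 := Real.log_pos (by norm_num)
  rw [le_div_iff₀ hl2, ← Real.log_pow]
  apply Real.log_le_log (by positivity)
  exact_mod_cast Nat.pow_log_le_self 2 (by omega)

theorem exc_bound : ∃ C : ℝ, 0 < C ∧ ∀ x : ℕ, 2 ≤ x →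
    ((Exc x).card : ℝ) ≤ C * (x : ℝ) ^ (17 / 18 : ℝ) * Real.log x ^ 2 := by
  have hl2 : 0 < Real.log 2 := Real.log_pos (by norm_num)
  refine ⟨2 ^ 17 * 68 / Real.log 2 ^ 2, by positivity, fun x hx => ?_⟩
  obtain ⟨w, hw1, hD2, hw18⟩ : ∃ w : ℕ, 1 ≤ w ∧ x < w ^ 18 ∧ w ^ 18 ≤ 2 ^ 18 * x := by
    obtain ⟨D, hD1, hD2⟩ := exists_root 18 (by norm_num) x
    have hD0 : 1 ≤ D := by
      by_contra h
      have h0 : D = 0 := by omega
      subst h0
      norm_num at hD2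
      omega
    refine ⟨D + 1, by omega, hD2, ?_⟩
    calc (D + 1) ^ 18 ≤ (2 * D) ^ 18 := Nat.pow_le_pow_left (by omega) 18
      _ = 2 ^ 18 * D ^ 18 := by rw [mul_pow]
      _ ≤ 2 ^ 18 * x := Nat.mul_le_mul_left _ hD1
  have hxR : (2 : ℝ) ≤ x := by exact_mod_cast hx
  have hx0 : (0 : ℝ) < x := by linarith
  set L : ℝ := Real.log x / Real.log 2 with hL
  have hL1 : 1 ≤ L := by
    rw [hL, le_div_iff₀ hl2, one_mul]
    exact Real.log_le_log (by norm_num) hxR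
  have hE : (Nat.log 2 x : ℝ) ≤ L := log2_le x (by omega)
  have hE0 : (0 : ℝ) ≤ Nat.log 2 x := Nat.cast_nonneg _
  -- the powers of `w`
  have hwx : (w : ℝ) ^ 17 ≤ 2 ^ 17 * (x : ℝ) ^ (17 / 18 : ℝ) := by
    have hw0 : (0 : ℝ) ≤ w := Nat.cast_nonneg w
    have e1 : ((w : ℝ)) ^ 18 ≤ 2 ^ 18 * x := by exact_mod_cast hw18
    have e2 : ((w : ℝ) ^ 17) ^ 18 ≤ (2 ^ 17 * (x : ℝ) ^ (17 / 18 : ℝ)) ^ 18 := by
      have e3 : ((x : ℝ) ^ (17 / 18 : ℝ)) ^ 18 = (x : ℝ) ^ 17 := by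
        rw [← Real.rpow_natCast, ← Real.rpow_mul hx0.le, ← Real.rpow_natCast]
        norm_num
      rw [mul_pow, e3]
      calc ((w : ℝ) ^ 17) ^ 18 = ((w : ℝ) ^ 18) ^ 17 := by ring
        _ ≤ (2 ^ 18 * (x : ℝ)) ^ 17 := pow_le_pow_left₀ (by positivity) e1 17
        _ = (2 ^ 17) ^ 18 * (x : ℝ) ^ 17 := by ring
    exact (pow_le_pow_iff_left₀ (by positivity) (by positivity) (by norm_num)).mp e2
  have hlogw : (Nat.log 2 (w ^ 4) : ℝ) ≤ 18 + Nat.log 2 x := by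
    have e1 : w ^ 4 ≤ 2 ^ 18 * x := (Nat.pow_le_pow_right hw1 (by norm_num)).trans hw18
    have e2 : Nat.log 2 (w ^ 4) ≤ Nat.log 2 (2 ^ 18 * x) := Nat.log_mono_right e1
    have e3 : Nat.log 2 (2 ^ 18 * x) = 18 + Nat.log 2 x := by
      have : ∀ k : ℕ, Nat.log 2 (2 ^ k * x) = k + Nat.log 2 x := by
        intro k
        induction k with
        | zero => simp
        | succ k ih =>
          rw [pow_succ, mul_assoc, mul_comm 2 x, ← mul_assoc,
            Nat.log_mul_base (by norm_num) (by positivity), ih]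
          ring
      exact this 18
    rw [e3] at e2
    exact_mod_cast e2
  have h1 := card_small x w hD2
  have h2 := card_large x w hD2
  have h3 : ((Exc x).card : ℝ) =
      (((Exc x).filter fun n => n.minFac < w ^ 7).card : ℝ) +
      (((Exc x).filter fun n => w ^ 7 ≤ n.minFac).card : ℝ) := by
    have := Finset.card_filter_add_card_filter_not (s := Exc x) (fun n => n.minFac < w ^ 7)
    have h4 : ((Exc x).filter fun n => ¬ n.minFac < w ^ 7) =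
        (Exc x).filter fun n => w ^ 7 ≤ n.minFac := by
      apply Finset.filter_congr
      intro n _
      omega
    rw [h4] at this
    exact_mod_cast this.symm
  have h5 : (((Exc x).filter fun n => w ^ 7 ≤ n.minFac).card : ℝ) ≤
      (Nat.log 2 x + 1) * (w : ℝ) ^ 9 + (w : ℝ) ^ 4 * ((w : ℝ) ^ 4 * (Nat.log 2 (w ^ 4) + 4)) *
        ((Nat.log 2 x + 1) * (w : ℝ) ^ 9) := by
    have := h2
    exact_mod_cast this
  have hw1R : (1 : ℝ) ≤ w := by exact_mod_cast hw1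
  have h9 : (w : ℝ) ^ 9 ≤ (w : ℝ) ^ 17 := pow_le_pow_right₀ hw1R (by norm_num)
  have hw17 : (0 : ℝ) ≤ (w : ℝ) ^ 17 := by positivity
  calc ((Exc x).card : ℝ) ≤ 6 * (Nat.log 2 x + 1) * (w : ℝ) ^ 17 +
        ((Nat.log 2 x + 1) * (w : ℝ) ^ 9 +
          (w : ℝ) ^ 4 * ((w : ℝ) ^ 4 * (Nat.log 2 (w ^ 4) + 4)) *
            ((Nat.log 2 x + 1) * (w : ℝ) ^ 9)) := by
        rw [h3]; exact add_le_add h1 h5
    _ ≤ 6 * (Nat.log 2 x + 1) * (w : ℝ) ^ 17 +
        ((Nat.log 2 x + 1) * (w : ℝ) ^ 17 +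
          (18 + Nat.log 2 x + 4) * (Nat.log 2 x + 1) * (w : ℝ) ^ 17) := by
        refine add_le_add le_rfl (add_le_add (mul_le_mul_of_nonneg_left h9 (by positivity)) ?_)
        calc (w : ℝ) ^ 4 * ((w : ℝ) ^ 4 * (Nat.log 2 (w ^ 4) + 4)) *
              ((Nat.log 2 x + 1) * (w : ℝ) ^ 9)
            = (Nat.log 2 (w ^ 4) + 4) * ((Nat.log 2 x + 1) * (w : ℝ) ^ 17) := by ring
          _ ≤ (18 + Nat.log 2 x + 4) * ((Nat.log 2 x + 1) * (w : ℝ) ^ 17) :=
              mul_le_mul_of_nonneg_right (by linarith) (by positivity)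
          _ = _ := by ring
    _ = (Nat.log 2 x + 1) * (29 + Nat.log 2 x) * (w : ℝ) ^ 17 := by ring
    _ ≤ (2 * L) * (34 * L) * (w : ℝ) ^ 17 := by
        apply mul_le_mul_of_nonneg_right _ hw17
        apply mul_le_mul (by linarith) (by linarith) (by positivity) (by positivity)
    _ ≤ (2 * L) * (34 * L) * (2 ^ 17 * (x : ℝ) ^ (17 / 18 : ℝ)) :=
        mul_le_mul_of_nonneg_left hwx (by positivity)
    _ = 2 ^ 17 * 68 / Real.log 2 ^ 2 * (x : ℝ) ^ (17 / 18 : ℝ) * Real.log x ^ 2 := by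
        rw [hL]; ring

end Pool.Agent.TwoPowSparse
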