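import Pool.Agent.TwoPowSparse.Digits

/-!
# The tree `{m : Z p j m}` has at most `2 z^(3/4)` elements below `z`
-/

namespace Pool.Agent.TwoPowSparse

open Finset Pool.Agent.TwoPow

variable {p : ℕ} [hp : Fact p.Prime]

open Classical in
/-- The number of `m < z` with `Z p j m`. -/
noncomputable def cz (p : ℕ) [Fact p.Prime] (j z : ℕ) : ℕ := ((range z).filter fun m => Z p j m).card

lemma cz_mono (j : ℕ) {z z' : ℕ} (h : z ≤ z') : cz p j z ≤ cz p j z' := by
  classical
  unfold cz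
  apply Finset.card_le_card
  intro m hm
  rw [mem_filter, mem_range] at hm ⊢
  exact ⟨by omega, hm.2⟩

lemma cz_base (h2 : p ≠ 2) (j L : ℕ) (hL : L ≤ p) : cz p j L ^ 4 ≤ L ^ 3 := by
  classical
  refine (Nat.pow_le_pow_left ?_ 4).trans (card_value_pow h2 L hL 0)
  unfold cz
  apply Finset.card_le_card
  intro m hm
  rw [mem_filter, mem_range] at hm ⊢
  exact ⟨hm.1, s_eq_zero_of_Z (by omega) hm.2⟩

lemma cz_step (h2 : p ≠ 2) (j y : ℕ) : cz p j (p * y) ^ 4 ≤ p ^ 3 * cz p (j + 1) y ^ 4 := by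
  classical
  obtain ⟨M, hM1, hM2⟩ := exists_root 4 (by norm_num) (p ^ 3)
  have hp0 := hp.out.pos
  have h : cz p j (p * y) ≤ M * cz p (j + 1) y := by
    unfold cz
    refine Finset.card_le_mul_card_image_of_maps_to (f := fun a => a / p) ?_ M ?_
    · intro a ha
      rw [mem_filter, mem_range] at ha ⊢
      exact ⟨Nat.div_lt_of_lt_mul ha.1, Z_parent ha.2⟩
    · intro b _
      obtain ⟨c, hc⟩ := digit_eq (p := p) j b
      have h3 : (((range (p * y)).filter fun m => Z p j m).filter fun a => a / p = b).card ≤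
          ((range p).filter fun r => s p r = (2 ^ b)⁻¹ * c).card := by
        refine Finset.card_le_card_of_injOn (fun a => a % p) ?_ ?_
        · intro a ha
          have ha1 := mem_filter.mp ha
          have ha2 := mem_filter.mp ha1.1
          have e1 : p * b + a % p = a := by rw [← ha1.2]; exact Nat.div_add_mod a p
          have e2 := hc (a % p) (Nat.mod_lt a hp0) (by rw [e1]; exact ha2.2)
          simp only [Finset.coe_filter, mem_range, Set.mem_ofPred_eq]
          refine ⟨Nat.mod_lt a hp0, ?_⟩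
          rw [← e2, ← mul_assoc, inv_mul_cancel₀ (pow_ne_zero _ (two_ne_zero_zmod h2)), one_mul]
        · intro a ha a' ha' haa
          have e1 := (mem_filter.mp ha).2
          have e2 := (mem_filter.mp ha').2
          have e3 := Nat.div_add_mod a p
          have e4 := Nat.div_add_mod a' p
          have e5 : a % p = a' % p := haa
          rw [← e3, ← e4, e1, e2, e5]
      refine h3.trans ?_
      by_contra hlt
      have e1 := card_value_pow h2 p le_rfl ((2 ^ b)⁻¹ * c)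
      have e2 : (M + 1) ^ 4 ≤
          ((range p).filter fun r => s p r = (2 ^ b)⁻¹ * c).card ^ 4 :=
        Nat.pow_le_pow_left (by omega) 4
      omega
  calc cz p j (p * y) ^ 4 ≤ (M * cz p (j + 1) y) ^ 4 := Nat.pow_le_pow_left h 4
    _ = M ^ 4 * cz p (j + 1) y ^ 4 := mul_pow _ _ _
    _ ≤ p ^ 3 * cz p (j + 1) y ^ 4 := Nat.mul_le_mul_right _ hM1

lemma cz_pow (h2 : p ≠ 2) (k : ℕ) : ∀ j L : ℕ, L ≤ p → cz p j (p ^ k * L) ^ 4 ≤ (p ^ k * L) ^ 3 := by
  induction k with
  | zero =>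
    intro j L hL
    rw [pow_zero, one_mul]
    exact cz_base h2 j L hL
  | succ k ih =>
    intro j L hL
    have e1 : p ^ (k + 1) * L = p * (p ^ k * L) := by ring
    rw [e1]
    calc cz p j (p * (p ^ k * L)) ^ 4 ≤ p ^ 3 * cz p (j + 1) (p ^ k * L) ^ 4 := cz_step h2 _ _
      _ ≤ p ^ 3 * (p ^ k * L) ^ 3 := Nat.mul_le_mul_left _ (ih (j + 1) L hL)
      _ = (p * (p ^ k * L)) ^ 3 := by ring

/-- **Uniform bound for the tree.** -/
theorem cz_bound (h2 : p ≠ 2) (j z : ℕ) (hz : 1 ≤ z) : cz p j z ^ 4 ≤ (2 * z) ^ 3 := by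
  have hp1 := hp.out.one_lt
  have h1 : p ^ Nat.log p z ≤ z := Nat.pow_log_le_self p (by omega)
  have h3 : z < p ^ (Nat.log p z + 1) := Nat.lt_pow_succ_log_self hp1 z
  set k := Nat.log p z
  have hpk : 0 < p ^ k := pow_pos hp.out.pos k
  have h4 : z / p ^ k < p := by
    rw [Nat.div_lt_iff_lt_mul hpk]
    calc z < p ^ (k + 1) := h3
      _ = p * p ^ k := by ring
  have h5 : z ≤ p ^ k * (z / p ^ k + 1) := by
    have := Nat.div_add_mod z (p ^ k)
    have e2 := Nat.mod_lt z hpk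
    rw [mul_add, mul_one]
    omega
  have h6 : p ^ k * (z / p ^ k + 1) ≤ 2 * z := by
    have := Nat.mul_div_le z (p ^ k)
    rw [mul_add, mul_one]
    omega
  calc cz p j z ^ 4 ≤ cz p j (p ^ k * (z / p ^ k + 1)) ^ 4 := Nat.pow_le_pow_left (cz_mono j h5) 4
    _ ≤ (p ^ k * (z / p ^ k + 1)) ^ 3 := cz_pow h2 k j _ h4
    _ ≤ (2 * z) ^ 3 := Nat.pow_le_pow_left h6 3

end Pool.Agent.TwoPowSparse
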